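import Pool.Agent.helper86.OF.SpecX

/-!
# of:DSL, designated edges
-/

open scoped BigOperators

namespace Pool.Agent.OF

noncomputable section

open Classical

variable {V : Type} [Fintype V]

/-- many pairs contain `r` disjoint ones -/
theorem DSL_gm (P : Finset (V × V)) (hN : 1 ≤ Fintype.card V) (r : ℕ)
    (hP : 2 * Fintype.card V * r ≤ P.card) :
    ∃ Q ⊆ P, Q.card = r ∧ (∀ p ∈ Q, ∀ q ∈ Q, p.1 = q.1 → p = q) ∧
      ∀ p ∈ Q, ∀ q ∈ Q, p.2 = q.2 → p = q := by
  induction r with
  | zero => exact ⟨∅, by simp, by simp, by simp, by simp⟩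
  | succ r ih =>
    obtain ⟨Q, hQP, hQr, h1, h2⟩ := ih (le_trans (by nlinarith) hP)
    set B := P.filter (fun p => p.1 ∈ Q.image Prod.fst ∨ p.2 ∈ Q.image Prod.snd) with hB
    have hBc : B.card < P.card := by
      have h3 : B ⊆ (Q.image Prod.fst ×ˢ (Finset.univ : Finset V)) ∪
          ((Finset.univ : Finset V) ×ˢ Q.image Prod.snd) := by
        intro p hp
        rw [hB, Finset.mem_filter] at hp
        rw [Finset.mem_union, Finset.mem_product, Finset.mem_product]
        rcases hp.2 with h | h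
        · exact Or.inl ⟨h, Finset.mem_univ _⟩
        · exact Or.inr ⟨Finset.mem_univ _, h⟩
      have h4 := (Finset.card_le_card h3).trans (Finset.card_union_le _ _)
      rw [Finset.card_product, Finset.card_product, Finset.card_univ] at h4
      have h5 : (Q.image Prod.fst).card ≤ r := hQr ▸ Finset.card_image_le
      have h6 : (Q.image Prod.snd).card ≤ r := hQr ▸ Finset.card_image_le
      nlinarith
    obtain ⟨p, hpP, hpB⟩ := Finset.exists_mem_notMem_of_card_lt_card hBc
    have hp1 : p.1 ∉ Q.image Prod.fst := fun h => hpB (by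
      rw [hB, Finset.mem_filter]; exact ⟨hpP, Or.inl h⟩)
    have hp2 : p.2 ∉ Q.image Prod.snd := fun h => hpB (by
      rw [hB, Finset.mem_filter]; exact ⟨hpP, Or.inr h⟩)
    have hpQ : p ∉ Q := fun h => hp1 (Finset.mem_image_of_mem _ h)
    refine ⟨insert p Q, Finset.insert_subset hpP hQP, ?_, ?_, ?_⟩
    · rw [Finset.card_insert_of_notMem hpQ, hQr]
    · intro x hx y hy hxy
      rcases Finset.mem_insert.1 hx with hx1 | hx1
      · rcases Finset.mem_insert.1 hy with hy1 | hy1
        · rw [hx1, hy1]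
        · exact (hp1 (hx1 ▸ hxy ▸ Finset.mem_image_of_mem _ hy1)).elim
      · rcases Finset.mem_insert.1 hy with hy1 | hy1
        · exact (hp1 (hy1 ▸ hxy ▸ Finset.mem_image_of_mem _ hx1)).elim
        · exact h1 x hx1 y hy1 hxy
    · intro x hx y hy hxy
      rcases Finset.mem_insert.1 hx with hx1 | hx1
      · rcases Finset.mem_insert.1 hy with hy1 | hy1
        · rw [hx1, hy1]
        · exact (hp2 (hx1 ▸ hxy ▸ Finset.mem_image_of_mem _ hy1)).elim
      · rcases Finset.mem_insert.1 hy with hy1 | hy1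
        · exact (hp2 (hy1 ▸ hxy ▸ Finset.mem_image_of_mem _ hx1)).elim
        · exact h2 x hx1 y hy1 hxy

/-- the partner function of a set of disjoint pairs -/
def DSL_m (Q : Finset (V × V)) (v : V) : V :=
  if h : ∃ w, (v, w) ∈ Q ∨ (w, v) ∈ Q then h.choose else v

/-- a set of disjoint pairs from `X` to its complement -/
structure DSL_MS (X : Finset V) (Q : Finset (V × V)) : Prop where
  inX : ∀ p ∈ Q, p.1 ∈ X ∧ p.2 ∉ X
  i1 : ∀ p ∈ Q, ∀ q ∈ Q, p.1 = q.1 → p = q
  i2 : ∀ p ∈ Q, ∀ q ∈ Q, p.2 = q.2 → p = q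

theorem DSL_MS.left {X : Finset V} {Q : Finset (V × V)} (h : DSL_MS X Q) {v w : V}
    (hvw : (v, w) ∈ Q) : DSL_m Q v = w := by
  have hex : ∃ w, (v, w) ∈ Q ∨ (w, v) ∈ Q := ⟨w, Or.inl hvw⟩
  unfold DSL_m
  rw [dif_pos hex]
  rcases hex.choose_spec with h1 | h1
  · exact (Prod.ext_iff.1 (h.i1 _ h1 _ hvw rfl)).2
  · exact ((h.inX _ h1).2 (h.inX _ hvw).1).elim

theorem DSL_MS.right {X : Finset V} {Q : Finset (V × V)} (h : DSL_MS X Q) {v w : V}
    (hvw : (w, v) ∈ Q) : DSL_m Q v = w := by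
  have hex : ∃ w, (v, w) ∈ Q ∨ (w, v) ∈ Q := ⟨w, Or.inr hvw⟩
  unfold DSL_m
  rw [dif_pos hex]
  rcases hex.choose_spec with h1 | h1
  · exact ((h.inX _ hvw).2 (h.inX _ h1).1).elim
  · exact (Prod.ext_iff.1 (h.i2 _ h1 _ hvw rfl)).1

theorem DSL_cases (Q : Finset (V × V)) (v : V) (hv : DSL_m Q v ≠ v) :
    (v, DSL_m Q v) ∈ Q ∨ (DSL_m Q v, v) ∈ Q := by
  unfold DSL_m at hv ⊢
  by_cases h : ∃ w, (v, w) ∈ Q ∨ (w, v) ∈ Q
  · rw [dif_pos h]
    exact h.choose_spec
  · rw [dif_neg h] at hv
    exact (hv rfl).elim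

theorem DSL_MS.inv {X : Finset V} {Q : Finset (V × V)} (h : DSL_MS X Q) (v : V) :
    DSL_m Q (DSL_m Q v) = v := by
  by_cases hv : DSL_m Q v = v
  · rw [hv, hv]
  · rcases DSL_cases Q v hv with h1 | h1
    · exact h.right h1
    · exact h.left h1

/-- in `X` the vertices of the pairs are the first coordinates -/
theorem DSL_MS.filt {X : Finset V} {Q : Finset (V × V)} (h : DSL_MS X Q) (S : Finset V)
    (hS : S ⊆ X) : (S.filter fun x => DSL_m Q x ≠ x).card = (Q.filter fun p => p.1 ∈ S).card := by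
  have h1 : (S.filter fun x => DSL_m Q x ≠ x) = (Q.filter fun p => p.1 ∈ S).image Prod.fst := by
    ext x
    rw [Finset.mem_filter, Finset.mem_image]
    constructor
    · rintro ⟨hx, hne⟩
      rcases DSL_cases Q x hne with h2 | h2
      · exact ⟨(x, DSL_m Q x), Finset.mem_filter.2 ⟨h2, hx⟩, rfl⟩
      · exact ((h.inX _ h2).2 (hS hx)).elim
    · rintro ⟨⟨a, b⟩, hp, rfl⟩
      rw [Finset.mem_filter] at hp
      refine ⟨hp.2, ?_⟩
      rw [h.left hp.1]
      intro hab
      have h3 := h.inX _ hp.1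
      simp only at hab h3
      rw [hab] at h3
      exact h3.2 h3.1
  rw [h1, Finset.card_image_of_injOn]
  intro p hp q hq hpq
  exact h.i1 p (Finset.mem_filter.1 hp).1 q (Finset.mem_filter.1 hq).1 hpq

/-- the number of vertices of a designated matching -/
theorem DSL_cnt {C : SimpleGraph V} {A X : Finset V} {k r : ℕ} {t : ℝ} {Dm : ℕ → V → V}
    (h : Desg C A X k r t Dm) (i : ℕ) (hi : i < k) :
    (X.filter fun v => Dm i v ≠ v).card = 2 * r ∧
      (Finset.univ.filter fun v => Dm i v ≠ v).card ≤ 4 * r := by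
  have h1 : (X.filter fun v => Dm i v ≠ v).card = 2 * r := by
    have h2 : X.filter (fun v => Dm i v ≠ v) =
        ((X ∩ A).filter fun x => Dm i x ≠ x) ∪ ((X \ A).filter fun x => Dm i x ≠ x) := by
      ext x
      simp only [Finset.mem_filter, Finset.mem_union, Finset.mem_inter, Finset.mem_sdiff]
      tauto
    have h3 : Disjoint ((X ∩ A).filter fun x => Dm i x ≠ x) ((X \ A).filter fun x => Dm i x ≠ x) := by
      rw [Finset.disjoint_left]
      intro x hx hx'
      simp only [Finset.mem_filter, Finset.mem_inter, Finset.mem_sdiff] at hx hx'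
      tauto
    rw [h2, Finset.card_union_of_disjoint h3, h.cA i hi, h.cB i hi]
    ring
  refine ⟨h1, ?_⟩
  have h4 : (Finset.univ.filter fun v => Dm i v ≠ v) ⊆
      (X.filter fun v => Dm i v ≠ v) ∪ (X.filter fun v => Dm i v ≠ v).image (Dm i) := by
    intro v hv
    rw [Finset.mem_filter] at hv
    rw [Finset.mem_union]
    by_cases hvX : v ∈ X
    · exact Or.inl (Finset.mem_filter.2 ⟨hvX, hv.2⟩)
    · right
      refine Finset.mem_image.2 ⟨Dm i v, Finset.mem_filter.2 ⟨?_, ?_⟩, (h.mat i hi).1 v⟩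
      · by_contra h5
        exact hvX ((h.typ i hi v hv.2).2 h5)
      · rw [(h.mat i hi).1 v]
        exact hv.2.symm
  have h5 := (Finset.card_le_card h4).trans (Finset.card_union_le _ _)
  have h6 : ((X.filter fun v => Dm i v ≠ v).image (Dm i)).card ≤ 2 * r := h1 ▸ Finset.card_image_le
  omega

/-- the load of a vertex -/
def DSL_ld (Dm : ℕ → V → V) (k : ℕ) (v : V) : ℕ := ((Finset.range k).filter fun i => Dm i v ≠ v).card

theorem DSL_sum {C : SimpleGraph V} {A X : Finset V} {k r : ℕ} {t : ℝ} {Dm : ℕ → V → V}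
    (h : Desg C A X k r t Dm) : ∑ v, DSL_ld Dm k v ≤ k * (4 * r) := by
  have h1 : ∑ v, DSL_ld Dm k v =
      ∑ i ∈ Finset.range k, (Finset.univ.filter fun v => Dm i v ≠ v).card := by
    unfold DSL_ld
    simp only [Finset.card_filter]
    rw [Finset.sum_comm]
  rw [h1]
  calc ∑ i ∈ Finset.range k, (Finset.univ.filter fun v => Dm i v ≠ v).card
      ≤ ∑ _i ∈ Finset.range k, 4 * r :=
        Finset.sum_le_sum fun i hi => (DSL_cnt h i (Finset.mem_range.1 hi)).2
    _ = k * (4 * r) := by rw [Finset.sum_const, Finset.card_range, smul_eq_mul]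

/-- the pairs used by the first `k` matchings -/
def DSL_us (X : Finset V) (Dm : ℕ → V → V) (k : ℕ) : Finset (V × V) :=
  (Finset.range k).biUnion fun i => (X.filter fun v => Dm i v ≠ v).image fun v => (v, Dm i v)

theorem DSL_us_card {C : SimpleGraph V} {A X : Finset V} {k r : ℕ} {t : ℝ} {Dm : ℕ → V → V}
    (h : Desg C A X k r t Dm) : (DSL_us X Dm k).card ≤ k * (2 * r) := by
  unfold DSL_us
  refine Finset.card_biUnion_le.trans ?_
  calc ∑ i ∈ Finset.range k, ((X.filter fun v => Dm i v ≠ v).image fun v => (v, Dm i v)).card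
      ≤ ∑ _i ∈ Finset.range k, 2 * r := Finset.sum_le_sum fun i hi =>
        (Finset.card_image_le).trans (DSL_cnt h i (Finset.mem_range.1 hi)).1.le
    _ = k * (2 * r) := by rw [Finset.sum_const, Finset.card_range, smul_eq_mul]

/-- the adjacent pairs of `S × T` -/
def DSL_pr (C : SimpleGraph V) (S T : Finset V) : Finset (V × V) :=
  (S ×ˢ T).filter fun p => C.Adj p.1 p.2

omit [Fintype V] in
theorem DSL_pr_card (C : SimpleGraph V) (S T : Finset V) : (DSL_pr C S T).card = ep C S T := by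
  unfold DSL_pr ep dgs
  rw [Finset.card_filter, Finset.sum_product]
  refine Finset.sum_congr rfl fun v _ => ?_
  rw [Finset.card_filter]

/-- one family of `r` disjoint pairs -/
theorem DSL_fam {C : SimpleGraph V} {A X : Finset V} {k r : ℕ} {t : ℝ} {Dm : ℕ → V → V}
    (h : Desg C A X k r t Dm) (hk : k ≤ Fintype.card V) (hN : 1 ≤ Fintype.card V)
    (O S T : Finset V) (hc : (4 * r + 2 * O.card) * Fintype.card V ≤ ep C S T) :
    ∃ Q : Finset (V × V), Q.card = r ∧ (∀ p ∈ Q, ∀ q ∈ Q, p.1 = q.1 → p = q) ∧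
      (∀ p ∈ Q, ∀ q ∈ Q, p.2 = q.2 → p = q) ∧
      ∀ p ∈ Q, p.1 ∈ S ∧ p.2 ∈ T ∧ C.Adj p.1 p.2 ∧ p.1 ∉ O ∧ p.2 ∉ O ∧ p ∉ DSL_us X Dm k := by
  set P := (DSL_pr C S T).filter fun p => p.1 ∉ O ∧ p.2 ∉ O ∧ p ∉ DSL_us X Dm k with hP
  have h1 : DSL_pr C S T ⊆ P ∪ ((O ×ˢ (Finset.univ : Finset V)) ∪
      ((Finset.univ : Finset V) ×ˢ O) ∪ DSL_us X Dm k) := by
    intro p hp
    simp only [hP, Finset.mem_union, Finset.mem_filter, Finset.mem_product, Finset.mem_univ,
      and_true, true_and]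
    by_cases a : p.1 ∈ O
    · tauto
    · by_cases b : p.2 ∈ O
      · tauto
      · by_cases c : p ∈ DSL_us X Dm k
        · tauto
        · tauto
  have h2 := (Finset.card_le_card h1).trans (Finset.card_union_le _ _)
  have h3 : ((O ×ˢ (Finset.univ : Finset V)) ∪ ((Finset.univ : Finset V) ×ˢ O) ∪
      DSL_us X Dm k).card ≤ O.card * Fintype.card V + Fintype.card V * O.card + k * (2 * r) := by
    refine (Finset.card_union_le _ _).trans (add_le_add ((Finset.card_union_le _ _).trans ?_)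
      (DSL_us_card h))
    rw [Finset.card_product, Finset.card_product, Finset.card_univ]
  rw [DSL_pr_card] at h2
  have h4 : k * (2 * r) ≤ Fintype.card V * (2 * r) := Nat.mul_le_mul_right _ hk
  obtain ⟨Q, hQP, hQ, h5, h6⟩ := DSL_gm P hN r (by nlinarith)
  refine ⟨Q, hQ, h5, h6, fun p hp => ?_⟩
  have h7 := hQP hp
  rw [hP, Finset.mem_filter, DSL_pr, Finset.mem_filter, Finset.mem_product] at h7
  exact ⟨h7.1.1.1, h7.1.1.2, h7.1.2, h7.2.1, h7.2.2.1, h7.2.2.2⟩

/-- one more matching -/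
theorem DSL_step {C : SimpleGraph V} {A X : Finset V} {k r : ℕ} {t : ℝ} {Dm : ℕ → V → V}
    (h : Desg C A X k r t Dm) (hk : k ≤ Fintype.card V) (hN : 1 ≤ Fintype.card V)
    (O : Finset V) (hO : ∀ v, v ∉ O → (DSL_ld Dm k v : ℝ) + 1 ≤ t)
    (h1 : (4 * r + 2 * O.card) * Fintype.card V ≤ ep C (X ∩ A) (Xᶜ \ A))
    (h2 : (4 * r + 2 * O.card) * Fintype.card V ≤ ep C (X \ A) (Xᶜ ∩ A)) :
    ∃ Dm', Desg C A X (k + 1) r t Dm' := by
  obtain ⟨Q1, hQ1, a1, a2, a3⟩ := DSL_fam h hk hN O _ _ h1
  obtain ⟨Q2, hQ2, b1, b2, b3⟩ := DSL_fam h hk hN O _ _ h2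
  have c1 : ∀ p ∈ Q1, p.1 ∈ X ∧ p.1 ∈ A ∧ p.2 ∉ X ∧ p.2 ∉ A := by
    intro p hp
    have := a3 p hp
    simp only [Finset.mem_inter, Finset.mem_sdiff, Finset.mem_compl] at this
    tauto
  have c2 : ∀ p ∈ Q2, p.1 ∈ X ∧ p.1 ∉ A ∧ p.2 ∉ X ∧ p.2 ∈ A := by
    intro p hp
    have := b3 p hp
    simp only [Finset.mem_inter, Finset.mem_sdiff, Finset.mem_compl] at this
    tauto
  set Q := Q1 ∪ Q2 with hQdef
  have hMS : DSL_MS X Q := by
    refine ⟨?_, ?_, ?_⟩
    · intro p hp
      rcases Finset.mem_union.1 hp with hp | hp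
      · exact ⟨(c1 p hp).1, (c1 p hp).2.2.1⟩
      · exact ⟨(c2 p hp).1, (c2 p hp).2.2.1⟩
    · intro p hp q hq hpq
      rcases Finset.mem_union.1 hp with hp | hp <;> rcases Finset.mem_union.1 hq with hq | hq
      · exact a1 p hp q hq hpq
      · exact ((c2 q hq).2.1 (hpq ▸ (c1 p hp).2.1)).elim
      · exact ((c2 p hp).2.1 (hpq ▸ (c1 q hq).2.1)).elim
      · exact b1 p hp q hq hpq
    · intro p hp q hq hpq
      rcases Finset.mem_union.1 hp with hp | hp <;> rcases Finset.mem_union.1 hq with hq | hq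
      · exact a2 p hp q hq hpq
      · exact ((c1 p hp).2.2.2 (hpq ▸ (c2 q hq).2.2.2)).elim
      · exact ((c1 q hq).2.2.2 (hpq ▸ (c2 p hp).2.2.2)).elim
      · exact b2 p hp q hq hpq
  have hprop : ∀ p ∈ Q, C.Adj p.1 p.2 ∧ p.1 ∉ O ∧ p.2 ∉ O ∧ p ∉ DSL_us X Dm k := by
    intro p hp
    rcases Finset.mem_union.1 hp with hp | hp
    · exact (a3 p hp).2.2
    · exact (b3 p hp).2.2
  set m := DSL_m Q with hm
  have hmat : MatIn C m := by
    refine ⟨hMS.inv, fun v hv => ?_⟩
    rcases DSL_cases Q v hv with h3 | h3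
    · exact (hprop _ h3).1
    · exact (hprop _ h3).1.symm
  have htyp : ∀ v, m v ≠ v → (v ∈ X ↔ m v ∉ X) := by
    intro v hv
    rcases DSL_cases Q v hv with h3 | h3
    · have := hMS.inX _ h3
      simp only at this
      tauto
    · have := hMS.inX _ h3
      simp only at this
      tauto
  have hnO : ∀ v, m v ≠ v → v ∉ O := by
    intro v hv
    rcases DSL_cases Q v hv with h3 | h3
    · exact (hprop _ h3).2.1
    · exact (hprop _ h3).2.2.1
  have hdis : ∀ i < k, ∀ v, m v ≠ v → m v ≠ Dm i v := by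
    intro i hi v hv he
    have hv' : Dm i v ≠ v := he ▸ hv
    have key : ∀ a b, (a, b) ∈ Q → Dm i a = b → False := by
      intro a b hab hD
      have h4 := hMS.inX _ hab
      refine (hprop _ hab).2.2.2 ?_
      unfold DSL_us
      refine Finset.mem_biUnion.2 ⟨i, Finset.mem_range.2 hi, Finset.mem_image.2 ⟨a, ?_, ?_⟩⟩
      · refine Finset.mem_filter.2 ⟨h4.1, ?_⟩
        rw [hD]
        rintro rfl
        exact h4.2 h4.1
      · rw [hD]
    rcases DSL_cases Q v hv with h3 | h3
    · exact key _ _ h3 he.symm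
    · refine key _ _ h3 ?_
      show Dm i (m v) = v
      rw [he]
      exact (h.mat i hi).1 v
  have hcA : ((X ∩ A).filter fun x => m x ≠ x).card = r := by
    rw [hMS.filt (X ∩ A) Finset.inter_subset_left, ← hQ1]
    congr 1
    ext p
    rw [Finset.mem_filter, Finset.mem_inter, hQdef, Finset.mem_union]
    constructor
    · rintro ⟨hp | hp, hpA⟩
      · exact hp
      · exact ((c2 p hp).2.1 hpA.2).elim
    · intro hp
      exact ⟨Or.inl hp, (c1 p hp).1, (c1 p hp).2.1⟩
  have hcB : ((X \ A).filter fun x => m x ≠ x).card = r := by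
    rw [hMS.filt (X \ A) Finset.sdiff_subset, ← hQ2]
    congr 1
    ext p
    rw [Finset.mem_filter, Finset.mem_sdiff, hQdef, Finset.mem_union]
    constructor
    · rintro ⟨hp | hp, hpA⟩
      · exact (hpA.2 (c1 p hp).2.1).elim
      · exact hp
    · intro hp
      exact ⟨Or.inr hp, (c2 p hp).1, (c2 p hp).2.1⟩
  have e1 : ∀ i, i < k → Function.update Dm k m i = Dm i := fun i hi =>
    Function.update_of_ne (by omega) _ _
  have e2 : Function.update Dm k m k = m := Function.update_self _ _ _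
  refine ⟨Function.update Dm k m, ?_, ?_, ?_, ?_, ?_, ?_⟩
  · intro i hi
    rcases Nat.lt_succ_iff_lt_or_eq.1 hi with hi | rfl
    · rw [e1 i hi]; exact h.mat i hi
    · rw [e2]; exact hmat
  · intro i hi
    rcases Nat.lt_succ_iff_lt_or_eq.1 hi with hi | rfl
    · rw [e1 i hi]; exact h.typ i hi
    · rw [e2]; exact htyp
  · intro i hi
    rcases Nat.lt_succ_iff_lt_or_eq.1 hi with hi | rfl
    · rw [e1 i hi]; exact h.cA i hi
    · rw [e2]; exact hcA
  · intro i hi
    rcases Nat.lt_succ_iff_lt_or_eq.1 hi with hi | rfl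
    · rw [e1 i hi]; exact h.cB i hi
    · rw [e2]; exact hcB
  · intro i hi j hj hij v hv
    rcases Nat.lt_succ_iff_lt_or_eq.1 hi with hi | rfl
    · rcases Nat.lt_succ_iff_lt_or_eq.1 hj with hj | rfl
      · rw [e1 i hi] at hv ⊢
        rw [e1 j hj]
        exact h.dis i hi j hj hij v hv
      · rw [e1 i hi] at hv ⊢
        rw [e2]
        intro he
        exact hdis i hi v (he ▸ hv) he.symm
    · rcases Nat.lt_succ_iff_lt_or_eq.1 hj with hj | rfl
      · rw [e2] at hv ⊢
        rw [e1 j hj]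
        exact hdis j hj v hv
      · exact (hij rfl).elim
  · intro v
    have h3 : ((Finset.range (k + 1)).filter fun i => Function.update Dm k m i v ≠ v).card ≤
        DSL_ld Dm k v + (if m v ≠ v then 1 else 0) := by
      unfold DSL_ld
      rw [Finset.range_add_one, Finset.filter_insert, e2]
      have h4 : (Finset.range k).filter (fun i => Function.update Dm k m i v ≠ v) =
          (Finset.range k).filter fun i => Dm i v ≠ v :=
        Finset.filter_congr fun i hi => by rw [e1 i (Finset.mem_range.1 hi)]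
      rw [h4]
      by_cases hv : m v ≠ v
      · rw [if_pos hv, if_pos hv]
        exact Finset.card_insert_le _ _
      · rw [if_neg hv, if_neg hv]
        exact le_rfl
    by_cases hv : m v ≠ v
    · rw [if_pos hv] at h3
      have h5 := hO v (hnO v hv)
      have h6 : ((((Finset.range (k + 1)).filter fun i => Function.update Dm k m i v ≠ v).card : ℕ) : ℝ)
          ≤ (DSL_ld Dm k v : ℝ) + 1 := by exact_mod_cast h3
      exact h6.trans h5
    · rw [if_neg hv, add_zero] at h3
      have h6 : ((((Finset.range (k + 1)).filter fun i => Function.update Dm k m i v ≠ v).card : ℕ) : ℝ)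
          ≤ (DSL_ld Dm k v : ℝ) := by exact_mod_cast h3
      exact h6.trans (h.ld v)

theorem DSL : DSL_stmt := by
  intro τ hτ
  refine ⟨4 + 16 / τ, ⌈2 / τ⌉₊ + 1, by positivity, ?_⟩
  intro V _ C A X w r hN0 hw hr _ h1 h2
  have hN : 1 ≤ Fintype.card V := by omega
  have hNr : 2 / τ ≤ Fintype.card V := by
    have h3 : (⌈2 / τ⌉₊ : ℝ) ≤ Fintype.card V := by
      exact_mod_cast (Nat.le_succ _).trans hN0
    exact (Nat.le_ceil _).trans h3
  set N := Fintype.card V with hNdef
  have hN' : (1 : ℝ) ≤ N := by exact_mod_cast hN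
  have hτN : 2 ≤ τ * N := by
    rw [div_le_iff₀ hτ] at hNr
    linarith
  have main : ∀ k, k ≤ w → ∃ Dm : ℕ → V → V, Desg C A X k r (τ * N) Dm := by
    intro k
    induction k with
    | zero =>
      intro _
      refine ⟨fun _ v => v, ?_, ?_, ?_, ?_, ?_, ?_⟩
      · intro i hi; omega
      · intro i hi; omega
      · intro i hi; omega
      · intro i hi; omega
      · intro i hi; omega
      · intro v
        simp only [Finset.range_zero, Finset.filter_empty, Finset.card_empty, Nat.cast_zero]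
        linarith
    | succ k ih =>
      intro hk
      obtain ⟨Dm, hD⟩ := ih (by omega)
      set O := Finset.univ.filter fun v => τ * N - 1 < (DSL_ld Dm k v : ℝ) with hO
      have hOc : (O.card : ℝ) ≤ 8 * r / τ := by
        have h3 : (O.card : ℝ) * (τ * N - 1) ≤ ∑ v, (DSL_ld Dm k v : ℝ) := by
          calc (O.card : ℝ) * (τ * N - 1) = ∑ _v ∈ O, (τ * N - 1) := by
                rw [Finset.sum_const, nsmul_eq_mul]
            _ ≤ ∑ v ∈ O, (DSL_ld Dm k v : ℝ) := Finset.sum_le_sum fun v hv => by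
                rw [hO, Finset.mem_filter] at hv
                exact hv.2.le
            _ ≤ ∑ v, (DSL_ld Dm k v : ℝ) := Finset.sum_le_sum_of_subset_of_nonneg
                (Finset.subset_univ _) fun v _ _ => by positivity
        have h4 : ∑ v, (DSL_ld Dm k v : ℝ) ≤ k * (4 * r) := by
          have := DSL_sum hD
          exact_mod_cast this
        have h5 : (k : ℝ) ≤ N := by exact_mod_cast (by omega : k ≤ N)
        have hr0 : (0 : ℝ) ≤ r := by positivity
        have h6 : (O.card : ℝ) * (τ * N / 2) ≤ N * (4 * r) := by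
          have h7 : (O.card : ℝ) * (τ * N / 2) ≤ O.card * (τ * N - 1) :=
            mul_le_mul_of_nonneg_left (by linarith) (by positivity)
          have h8 : (k : ℝ) * (4 * r) ≤ N * (4 * r) :=
            mul_le_mul_of_nonneg_right h5 (by positivity)
          linarith
        rw [le_div_iff₀ hτ]
        have h9 : (N : ℝ) * (O.card * τ) ≤ N * (8 * r) := by nlinarith
        exact le_of_mul_le_mul_left h9 (by linarith)
      have hbd : ((4 * r + 2 * O.card) * N : ℝ) ≤ (4 + 16 / τ) * (r + 1) * N := by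
        refine mul_le_mul_of_nonneg_right ?_ (by linarith)
        have h10 : (4 : ℝ) * r + 2 * O.card ≤ 4 * r + 2 * (8 * r / τ) := by linarith
        have h11 : (4 : ℝ) * r + 2 * (8 * r / τ) = (4 + 16 / τ) * r := by ring
        have h12 : (0 : ℝ) ≤ 4 + 16 / τ := by positivity
        nlinarith
      have hO' : ∀ v, v ∉ O → (DSL_ld Dm k v : ℝ) + 1 ≤ τ * N := by
        intro v hv
        rw [hO, Finset.mem_filter] at hv
        have : ¬ (τ * N - 1 < (DSL_ld Dm k v : ℝ)) := fun h => hv ⟨Finset.mem_univ _, h⟩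
        linarith
      refine DSL_step hD (by omega) hN O hO' ?_ ?_
      · have := hbd.trans h1
        exact_mod_cast this
      · have := hbd.trans h2
        exact_mod_cast this
  exact main w le_rfl

end

end Pool.Agent.OF
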